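import Pool.Agent.H852R2.TE.S.SFEN
import Pool.Agent.H852R2.TE.S.SFTR
import Pool.Agent.H14R2.RC.S.NOINV

/-!
Definitions for the project LL (MP_75608d_al): `C (log log n)²` random elements of `A_n` have
spectral gap at least `(log n)^{-C}`.
-/

namespace LL14
open RC14 RC852 TE852 Finset Equiv

noncomputable section

/-- the family `g` moves every `d`-tuple, `d ≤ r`, to every `d`-tuple with probability at most
`2 h^d` -/
def PMix (r : ℕ) (h : ℝ) {n : ℕ} {K : Type*} [Fintype K] (g : K → Perm (Fin n)) : Prop :=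
  ∀ d, d ≤ r → ∀ y z : Tup d n,
    (#{k | mv (g k) y = z} : ℝ) ≤ 2 * h ^ d * Fintype.card K

/-- number of fixed points -/
def FH (G n : ℕ) : ℕ := n / G ^ 8 + 1

/-- few block words of length `2 LL r j` have many fixed points, for all levels
`r ≤ j ≤ r G^8` -/
def GoodH (G r : ℕ) {n q : ℕ} {K : Type*} [Fintype K] (g : K → Perm (Fin n))
    (b : Fin q → Perm (Fin n)) : Prop :=
  ∀ j, r ≤ j → j ≤ r * G ^ 8 →
    (Nat.card {w : Fin (2 * LL r j) → K × (Fin q × Bool) //
        2 * FH G n ≤ nfix (bwd g b w)} : ℝ) ≤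
      (1 / (G : ℝ)) ^ (2 * j) * (Fintype.card (K × (Fin q × Bool)) : ℝ) ^ (2 * LL r j)

end

end LL14
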