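import Pool.Agent.H14R2.LL.S.HCHAR
import Pool.Agent.H14R2.RD.R4c

namespace LL14
open RC14 RC852 TE852 Finset Equiv Filter

namespace FINHx

/-- the last step for given parameters -/
theorem core (n r m k R : ℕ) (c3 : ℝ) (h3 : 0 < c3)
    (hch : ∀ (W : Submodule ℂ (FA n)) (hW : Irr (RR n) W), W ≤ HH r n →
      ∀ g : Alt n, 2 * nfix (g : Perm (Fin n)) ≤ n →
        ‖rchr (RR n) W hW.2.1 g‖ ≤ Real.exp (-(c3 * n)) * Module.finrank ℂ W)
    (hmF : m ≤ n / 2) (hmr : m ≤ r) (hmn : m + 2 ≤ n)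
    (hX : (Fintype.card (Tup m n) : ℝ) ≤ Real.exp (3 * c3 * n))
    (hFm : 2 * Real.exp (c3 * n) ≤ ((n / 2).descFactorial m : ℝ))
    (hnum : Real.exp (27 / 200 * (c3 * n) + 9 / 400) * (2 * Real.exp (-(c3 * n))) ≤
      Real.exp (-(c3 * n / 2)))
    (hΛ : 32 ≤ c3 * n / 2) (hk : 1 ≤ k) (c : ℝ) (hc : 0 < c) (hc1 : c ≤ 1)
    (hd : (Fintype.card (Alt n) : ℝ) < Real.exp (c3 * n / 2 * (2 : ℝ) ^ R / 16))
    (y : Fin k → Alt n) (hy : Good1 n r c y) :
    (Nat.card {z : Fin R → Fin 2 → Alt n // ¬ ∀ v ∈ HH r n,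
        1 * ‖v‖ ^ 2 ≤ 75 / c * En (RR n) y v + 5 * ∑ i, En (RR n) (z i) v} : ℝ) ≤
      2 * Real.exp (3 * Real.sqrt n) * (R * Real.exp (-(c3 * n / 64))) *
        (Fintype.card (Alt n) : ℝ) ^ (R * 2) := by
  have hk' : (1 : ℝ) ≤ k := by exact_mod_cast hk
  have hk0 : (0 : ℝ) < k := by linarith
  set ϑ : ℝ := c / (100 * k) with hϑ
  have hϑ0 : 0 < ϑ := by rw [hϑ]; positivity
  have hϑ1 : ϑ ≤ 1 / 100 := by
    rw [hϑ, div_le_div_iff₀ (by positivity) (by norm_num)]
    nlinarith
  set L : ℕ := ⌈6 * c3 * n * k / c⌉₊ with hL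
  have hL1 : 6 * c3 * n * k / c ≤ (L : ℝ) := Nat.le_ceil _
  have hL2 : (L : ℝ) ≤ 6 * c3 * n * k / c + 1 := by
    have := Nat.ceil_lt_add_one (show 0 ≤ 6 * c3 * n * k / c by positivity)
    linarith
  have hgap : ∀ f : V m n, ∑ a, f a = 0 → c * ‖f‖ ^ 2 ≤ En (repA m n) y f :=
    FRV n m k hmn y c (fun j h1 h2 f hf => hy j h1 (h2.trans hmr) f hf)
  have hexp : 3 * c3 * n ≤ c * ((2 * L : ℕ) : ℝ) / (4 * k) := by
    rw [le_div_iff₀ (by positivity)]
    push_cast
    have : c * (6 * c3 * n * k / c) ≤ c * L := by gcongr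
    rw [mul_div_cancel₀ _ hc.ne'] at this
    nlinarith
  have h := UBG (RR n) (HH r n) _ (TYPES (RR n) (HH r n) (HH_inv r n))
    (Z := Fin R → Fin 2 → Alt n) (fun z v => 75 / c * En (RR n) y v +
          5 * ∑ r, En (RR n) (z r) v)
    (fun z => ((IsEn.en (RR n) y).smul (75 / c) (by positivity)).add
      ((IsEn.sum Finset.univ (fun r => En (RR n) (z r)) fun r => IsEn.en (RR n) (z r)).smul
        5 (by positivity))) 1
    (R * Real.exp (-(c3 * n / 64)) * (Fintype.card (Alt n) : ℝ) ^ (R * 2))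
    (by positivity) ?_
  · refine h.trans ?_
    have h1 := CONJA n
    have h0 : 0 ≤ R * Real.exp (-(c3 * n / 64)) *
      (Fintype.card (Alt n) : ℝ) ^ (R * 2) := by positivity
    calc _ ≤ (2 * Real.exp (3 * Real.sqrt n)) * (R * Real.exp (-(c3 * n / 64)) *
        (Fintype.card (Alt n) : ℝ) ^ (R * 2)) := mul_le_mul_of_nonneg_right h1 h0
      _ = _ := by ring
  · intro W hW hWL
    have hη : RtL (RR n) W hW.2.1 y (2 * L) ≤
        (2 * Real.exp (-(c3 * n))) * Module.finrank ℂ W := by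
      have h1 := TRL n m k (n / 2) hk hmF y c hc.le hgap (2 * L) (res (RR n) W hW.2.1)
        (Real.exp (-(c3 * n))) (by positivity) (fun g hg =>
          hch W hW hWL g (by omega))
      refine h1.trans ?_
      have h2 : Real.exp (-(c * ((2 * L : ℕ) : ℝ) / (4 * k))) ≤ Real.exp (-(3 * c3 * n)) := by
        apply Real.exp_le_exp.mpr
        linarith
      have h3 : (Fintype.card (Tup m n) : ℝ) * Real.exp (-(c * ((2 * L : ℕ) : ℝ) / (4 * k))) ≤
          1 := by
        calc _ ≤ Real.exp (3 * c3 * n) * Real.exp (-(3 * c3 * n)) := by gcongr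
          _ = 1 := by rw [← Real.exp_add]; simp
      have h4 : (0 : ℝ) < (n / 2).descFactorial m := lt_of_lt_of_le (by positivity) hFm
      have h5 : (1 + (Fintype.card (Tup m n) : ℝ) *
          Real.exp (-(c * ((2 * L : ℕ) : ℝ) / (4 * k)))) /
          ((n / 2).descFactorial m : ℝ) ≤ Real.exp (-(c3 * n)) := by
        rw [div_le_iff₀ h4]
        calc 1 + (Fintype.card (Tup m n) : ℝ) *
            Real.exp (-(c * ((2 * L : ℕ) : ℝ) / (4 * k))) ≤ 2 := by linarith
          _ = Real.exp (-(c3 * n)) * (2 * Real.exp (c3 * n)) := by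
              rw [mul_left_comm, ← Real.exp_add]; simp
          _ ≤ Real.exp (-(c3 * n)) * ((n / 2).descFactorial m : ℝ) := by gcongr
      gcongr
      linarith
    have hnum' : (1 / (1 - ϑ)) ^ (2 * L) * (2 * Real.exp (-(c3 * n))) ≤
        Real.exp (-(c3 * n / 2)) := by
      have h1 : 1 / (1 - ϑ) ≤ Real.exp (ϑ * (9 / 8)) := by
        rw [div_le_iff₀ (by linarith)]
        have := Real.add_one_le_exp (ϑ * (9 / 8))
        calc (1 : ℝ) ≤ (ϑ * (9 / 8) + 1) * (1 - ϑ) := by nlinarith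
          _ ≤ Real.exp (ϑ * (9 / 8)) * (1 - ϑ) := by
              apply mul_le_mul_of_nonneg_right this; linarith
      have h2 : (1 / (1 - ϑ)) ^ (2 * L) ≤ Real.exp (27 / 200 * (c3 * n) + 9 / 400) := by
        calc (1 / (1 - ϑ)) ^ (2 * L) ≤ Real.exp (ϑ * (9 / 8)) ^ (2 * L) :=
              pow_le_pow_left₀ (by
                have : 0 < 1 - ϑ := by linarith
                positivity) h1 _
          _ = Real.exp (((2 * L : ℕ) : ℝ) * (ϑ * (9 / 8))) := by rw [← Real.exp_nat_mul]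
          _ ≤ Real.exp (27 / 200 * (c3 * n) + 9 / 400) := by
              apply Real.exp_le_exp.mpr
              have e1 : ((2 * L : ℕ) : ℝ) * (ϑ * (9 / 8)) ≤
                  (2 * (6 * c3 * n * k / c + 1)) * (ϑ * (9 / 8)) := by
                push_cast
                gcongr
              refine e1.trans ?_
              have e2 : (2 * (6 * c3 * n * k / c + 1)) * (ϑ * (9 / 8)) =
                  27 / 200 * (c3 * n) + 9 / 4 * ϑ := by
                rw [hϑ]
                field_simp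
                ring
              rw [e2]
              linarith
      calc (1 / (1 - ϑ)) ^ (2 * L) * (2 * Real.exp (-(c3 * n)))
          ≤ Real.exp (27 / 200 * (c3 * n) + 9 / 400) * (2 * Real.exp (-(c3 * n))) := by gcongr
        _ ≤ _ := hnum
    have hdW : (Module.finrank ℂ W : ℝ) < Real.exp (c3 * n / 2 * ((2 : ℕ) : ℝ) ^ R / 16) := by
      refine lt_of_le_of_lt ?_ (by exact_mod_cast hd)
      have : Module.finrank ℂ W ≤ Fintype.card (Alt n) := by
        refine (Submodule.finrank_le _).trans ?_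
        simp
      exact_mod_cast this
    have h6 := AMP4L (RR n) W hW k hk y ϑ hϑ0 (by linarith) L (2 * Real.exp (-(c3 * n))) hη 2 R
      le_rfl (c3 * n / 2) hΛ hnum' hdW
    have h7 : 3 / (4 * ϑ * k) = 75 / c := by
      rw [hϑ]
      field_simp
      norm_num
    have h8 : (10 : ℝ) / ((2 : ℕ) : ℝ) = 5 := by norm_num
    have h9 : -(c3 * (n : ℝ) / 2 * ((2 : ℕ) : ℝ) / 64) = -(c3 * n / 64) := by
      push_cast; ring
    rw [h7, h8, h9] at h6
    exact h6

/-- the numerical conditions -/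
theorem ev (D1 : ℕ) (hD : 100 ≤ D1) (c3 : ℝ) (h3 : 0 < c3) (h31 : c3 ≤ 1) :
    ∀ᶠ n : ℕ in atTop, ∃ m : ℕ, m ≤ n / 2 ∧ (∀ r, n ≤ D1 * r → m ≤ r) ∧ m + 2 ≤ n ∧
      (Fintype.card (Tup m n) : ℝ) ≤ Real.exp (3 * c3 * n) ∧
      2 * Real.exp (c3 * n) ≤ ((n / 2).descFactorial m : ℝ) := by
  have t1 : Tendsto (fun n : ℕ => Real.log (n : ℝ)) atTop atTop :=
    Real.tendsto_log_atTop.comp tendsto_natCast_atTop_atTop
  have t2 : Tendsto (fun n : ℕ => (n : ℝ)) atTop atTop := tendsto_natCast_atTop_atTop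
  have t3 : Tendsto (fun n : ℕ => Real.log (n : ℝ) / n) atTop (nhds 0) := by
    have h := Real.isLittleO_log_id_atTop.tendsto_div_nhds_zero
    exact h.comp tendsto_natCast_atTop_atTop
  filter_upwards [t1.eventually_ge_atTop (16 * D1), t2.eventually_ge_atTop (64 * D1),
    t3.eventually_le_const (show (0 : ℝ) < c3 / 4 by positivity), t2.eventually_ge_atTop (8 / c3)]
    with n hl hn hln hn2
  have hDr : (100 : ℝ) ≤ D1 := by exact_mod_cast hD
  have hn0 : (0 : ℝ) < n := by linarith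
  have hl0 : 0 < Real.log n := by linarith
  have hn3 : 8 ≤ c3 * n := by
    rw [div_le_iff₀ h3] at hn2
    linarith
  have hln' : Real.log n ≤ c3 / 4 * n := by
    rwa [div_le_iff₀ hn0] at hln
  set m : ℕ := ⌈(2 * c3 * n + 2) / Real.log n⌉₊ with hm
  have hm1 : (2 * c3 * n + 2) / Real.log n ≤ m := Nat.le_ceil _
  have hm2 : (m : ℝ) ≤ (2 * c3 * n + 2) / Real.log n + 1 := by
    have := Nat.ceil_lt_add_one (show 0 ≤ (2 * c3 * n + 2) / Real.log n by positivity)
    linarith
  have hm3 : (m : ℝ) * D1 ≤ n / 2 := by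
    have h1 : (2 * c3 * n + 2) / Real.log n ≤ n / (4 * D1) := by
      rw [div_le_div_iff₀ hl0 (by positivity)]
      have a1 : 2 * c3 * n + 2 ≤ 3 * n := by
        have : c3 * n ≤ 1 * n := by gcongr
        linarith
      calc (2 * c3 * n + 2) * (4 * D1) ≤ (3 * n) * (4 * D1) := by gcongr
        _ ≤ n * (16 * D1) := by
            have : 0 ≤ (n : ℝ) * D1 := by positivity
            linarith
        _ ≤ n * Real.log n := by gcongr
    have h2 : (n : ℝ) / (4 * D1) * D1 = n / 4 := by field_simp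
    have h3' : (m : ℝ) * D1 ≤ (n / (4 * D1) + 1) * D1 := by
      gcongr
      linarith
    rw [add_mul, h2] at h3'
    linarith
  have hm4 : m * D1 * 2 ≤ n := by
    have : (m : ℝ) * D1 * 2 ≤ n := by linarith
    exact_mod_cast this
  have hn64 : 64 * D1 ≤ n := by exact_mod_cast hn
  have hmle : 200 * m ≤ n := by nlinarith
  have hmlog : 2 * c3 * n + 2 ≤ m * Real.log n := by
    rwa [div_le_iff₀ hl0] at hm1
  have hmlog2 : m * Real.log n ≤ 3 * c3 * n := by
    have : (m : ℝ) * Real.log n ≤ ((2 * c3 * n + 2) / Real.log n + 1) * Real.log n := by gcongr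
    have e : ((2 * c3 * n + 2) / Real.log n + 1) * Real.log n = 2 * c3 * n + 2 + Real.log n := by
      field_simp
    rw [e] at this
    nlinarith
  refine ⟨m, by omega, ?_, by omega, ?_, ?_⟩
  · intro r hr
    by_contra hcon
    push Not at hcon
    have : D1 * (r + 1) ≤ D1 * m := Nat.mul_le_mul_left _ hcon
    nlinarith
  · have h1 : Fintype.card (Tup m n) ≤ n ^ m := by
      have : Fintype.card (Tup m n) = n.descFactorial m := by
        simp only [Tup, Fintype.card_embedding_eq, Fintype.card_fin]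
      rw [this]
      exact Nat.descFactorial_le_pow n m
    calc (Fintype.card (Tup m n) : ℝ) ≤ (n : ℝ) ^ m := by exact_mod_cast h1
      _ = Real.exp (m * Real.log n) := by
          rw [Real.exp_nat_mul, Real.exp_log hn0]
      _ ≤ _ := Real.exp_le_exp.mpr hmlog2
  · have h1 : (n / 2 + 1 - m) ^ m ≤ (n / 2).descFactorial m := Nat.pow_sub_le_descFactorial _ _
    have h2 : n ≤ 4 * (n / 2 + 1 - m) := by omega
    have h3' : (n : ℝ) / 4 ≤ ((n / 2 + 1 - m : ℕ) : ℝ) := by
      rw [div_le_iff₀ (by norm_num)]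
      have : (n : ℝ) ≤ ((4 * (n / 2 + 1 - m) : ℕ) : ℝ) := by exact_mod_cast h2
      push_cast at this ⊢
      linarith
    have hlog4 : Real.log n / 2 ≤ Real.log (n / 4) := by
      rw [Real.log_div hn0.ne' (by norm_num)]
      have : Real.log 4 ≤ 3 := by
        have := Real.log_le_sub_one_of_pos (show (0 : ℝ) < 4 by norm_num)
        linarith
      linarith
    have hl2 : (2 : ℝ) = Real.exp (Real.log 2) := (Real.exp_log (by norm_num)).symm
    have hlog2 : Real.log 2 ≤ 1 := by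
      have := Real.log_le_sub_one_of_pos (show (0 : ℝ) < 2 by norm_num)
      linarith
    calc 2 * Real.exp (c3 * n) = Real.exp (Real.log 2 + c3 * n) := by
          rw [Real.exp_add, Real.exp_log (by norm_num)]
      _ ≤ Real.exp (m * Real.log (n / 4)) := by
          apply Real.exp_le_exp.mpr
          have : (m : ℝ) * (Real.log n / 2) ≤ m * Real.log (n / 4) := by gcongr
          linarith
      _ = ((n : ℝ) / 4) ^ m := by
          rw [Real.exp_nat_mul, Real.exp_log (by positivity)]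
      _ ≤ ((n / 2 + 1 - m : ℕ) : ℝ) ^ m := by gcongr
      _ ≤ _ := by exact_mod_cast h1

theorem ev2 (c3 : ℝ) (h3 : 0 < c3) : ∀ᶠ n : ℕ in atTop,
    2 * Real.exp (3 * Real.sqrt n) * (n * Real.exp (-(c3 * n / 64))) ≤ 1 / n := by
  have t2 : Tendsto (fun n : ℕ => (n : ℝ)) atTop atTop := tendsto_natCast_atTop_atTop
  have t4 : Tendsto (fun n : ℕ => Real.sqrt n) atTop atTop :=
    Real.tendsto_sqrt_atTop.comp tendsto_natCast_atTop_atTop
  filter_upwards [t2.eventually_ge_atTop 4, t4.eventually_ge_atTop (64 * 8 / c3)] with n hn hs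
  have hn0 : (0 : ℝ) < n := by linarith
  set s := Real.sqrt n with hsd
  have hs2 : s ^ 2 = n := Real.sq_sqrt hn0.le
  have hs0 : 2 ≤ s := by
    rw [hsd]
    apply Real.le_sqrt_of_sq_le
    linarith
  have h1 : 8 * s ≤ c3 * n / 64 := by
    rw [div_le_iff₀ h3] at hs
    rw [← hs2]
    nlinarith
  have h2 : (n : ℝ) ≤ Real.exp (2 * s) := by
    have := Real.add_one_le_exp s
    have h5 : s ≤ Real.exp s := by linarith
    calc (n : ℝ) = s ^ 2 := hs2.symm
      _ ≤ Real.exp s ^ 2 := pow_le_pow_left₀ (by linarith) h5 2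
      _ = Real.exp (2 * s) := by rw [← Real.exp_nat_mul]; norm_num
  have h3' : (2 : ℝ) ≤ Real.exp s := by
    have := Real.add_one_le_exp s
    linarith
  rw [le_div_iff₀ hn0]
  calc 2 * Real.exp (3 * s) * (n * Real.exp (-(c3 * n / 64))) * n
      ≤ Real.exp s * Real.exp (3 * s) * (Real.exp (2 * s) * Real.exp (-(8 * s))) *
        Real.exp (2 * s) := by
        have : Real.exp (-(c3 * n / 64)) ≤ Real.exp (-(8 * s)) := by
          apply Real.exp_le_exp.mpr; linarith
        gcongr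
    _ = 1 := by
        rw [← Real.exp_add, ← Real.exp_add, ← Real.exp_add, ← Real.exp_add, Real.exp_eq_one_iff]
        ring

end FINHx

/-- the last step: all levels above `r ≥ n / D1` -/
theorem FINH (D1 : ℕ) (hD : 100 ≤ D1) : ∃ A : ℝ, 1 ≤ A ∧ ∀ᶠ n : ℕ in atTop,
    ∀ r R : ℕ, n ≤ D1 * r → 2 * r + 2 ≤ n → A * Real.log n ≤ 2 ^ R → R ≤ n →
    ∀ k : ℕ, 1 ≤ k → ∀ c : ℝ, 0 < c → c ≤ 1 → ∀ y : Fin k → Alt n, Good1 n r c y →
    (Nat.card {z : Fin R → Fin 2 → Alt n // ¬ ∀ v ∈ HH r n,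
        1 * ‖v‖ ^ 2 ≤ 75 / c * En (RR n) y v + 5 * ∑ i, En (RR n) (z i) v} : ℝ) ≤
      1 / (n : ℝ) * (Fintype.card (Alt n) : ℝ) ^ (R * 2) := by
  obtain ⟨c3', h3', hch'⟩ := HCHAR D1 hD
  set c3 : ℝ := min c3' 1 with hc3
  have h3 : 0 < c3 := lt_min h3' one_pos
  have h31 : c3 ≤ 1 := min_le_right _ _
  refine ⟨33 / c3, ?_, ?_⟩
  · rw [le_div_iff₀ h3]; linarith
  have t2 : Tendsto (fun n : ℕ => (n : ℝ)) atTop atTop := tendsto_natCast_atTop_atTop
  filter_upwards [hch', FINHx.ev D1 hD c3 h3 h31, FINHx.ev2 c3 h3,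
    t2.eventually_ge_atTop (64 / c3), t2.eventually_ge_atTop 3] with n hch hm he hn hn3
  intro r R hr h2r hR hRn k hk c hc hc1 y hy
  obtain ⟨m, hmF, hmr, hmn, hX, hFm⟩ := hm
  have hn0 : (0 : ℝ) < n := by linarith
  have hx : 64 ≤ c3 * n := by
    rw [div_le_iff₀ h3] at hn
    linarith
  have hl0 : 0 < Real.log n := Real.log_pos (by linarith)
  have key := FINHx.core n r m k R c3 h3 (fun W hW hWL g hg => by
      refine (hch r hr W hW hWL g hg).trans ?_
      have : Real.exp (-(c3' * n)) ≤ Real.exp (-(c3 * n)) := by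
        apply Real.exp_le_exp.mpr
        have : c3 ≤ c3' := min_le_left _ _
        have : c3 * n ≤ c3' * n := by gcongr
        linarith
      gcongr) hmF (hmr r hr) hmn hX hFm (by
      have h1 : (2 : ℝ) ≤ Real.exp 1 := by
        have := Real.add_one_le_exp (1 : ℝ)
        linarith
      calc Real.exp (27 / 200 * (c3 * n) + 9 / 400) * (2 * Real.exp (-(c3 * n)))
          ≤ Real.exp (27 / 200 * (c3 * n) + 9 / 400) * (Real.exp 1 * Real.exp (-(c3 * n))) := by
            gcongr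
        _ = Real.exp (27 / 200 * (c3 * n) + 9 / 400 + (1 + -(c3 * n))) := by
            rw [← Real.exp_add, ← Real.exp_add]
        _ ≤ _ := by
            apply Real.exp_le_exp.mpr
            linarith) (by linarith) hk c hc hc1 ?_ y hy
  · refine key.trans ?_
    have hR' : (R : ℝ) ≤ n := by exact_mod_cast hRn
    have : 2 * Real.exp (3 * Real.sqrt n) * (R * Real.exp (-(c3 * n / 64))) ≤ 1 / n := by
      refine le_trans ?_ he
      gcongr
    gcongr
  · have h1 : Fintype.card (Alt n) ≤ n ^ n := by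
      have h2 : Fintype.card (Alt n) ≤ Fintype.card (Equiv.Perm (Fin n)) :=
        Fintype.card_le_of_injective (fun g : Alt n => (g : Equiv.Perm (Fin n)))
          Subtype.val_injective
      rw [Fintype.card_perm, Fintype.card_fin] at h2
      exact h2.trans (Nat.factorial_le_pow n)
    calc (Fintype.card (Alt n) : ℝ) ≤ (n : ℝ) ^ n := by exact_mod_cast h1
      _ = Real.exp (n * Real.log n) := by rw [Real.exp_nat_mul, Real.exp_log hn0]
      _ < _ := by
          apply Real.exp_lt_exp.mpr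
          rw [div_mul_eq_mul_div, div_le_iff₀ h3] at hR
          have h5 : 33 * Real.log n * n ≤ (2 : ℝ) ^ R * c3 * n := by gcongr
          have h6 : 0 < Real.log n * n := by positivity
          nlinarith

end LL14
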