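import Pool.Agent.H14R2.LL.S.ITERH
import Pool.Agent.H14R2.LL.S.FINH
import Pool.Agent.H14R2.RD.R4c
import Pool.Agent.H14R2.RC.S.BLOCKS

namespace LL14
open RC14 RC852 TE852 Finset Equiv Filter

namespace MAINHx

/-- combining the two stages -/
theorem comb2 (n r R a : ℕ) (c : ℝ) (hc : 0 < c) (hc1 : c ≤ 1) (ha : 1 ≤ a) (p1 p2 : ℝ)
    (hp2 : 0 ≤ p2)
    (h1 : (Nat.card {x : Fin a → Alt n // ¬ Good1 n r c x} : ℝ) ≤
      p1 * (Fintype.card (Alt n) : ℝ) ^ a)
    (h2 : ∀ x : Fin a → Alt n, Good1 n r c x →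
      (Nat.card {z : Fin R → Fin 2 → Alt n // ¬ ∀ v ∈ HH r n,
        1 * ‖v‖ ^ 2 ≤ 75 / c * En (RR n) x v + 5 * ∑ i, En (RR n) (z i) v} : ℝ) ≤
        p2 * (Fintype.card (Alt n) : ℝ) ^ (R * 2)) :
    (Nat.card {y : Fin (a + R * 2) → Alt n //
        ¬ Expanding (c / 75 / (2 * (a + R * 2 : ℕ))) y} : ℝ) ≤
      (p1 + p2) * (Fintype.card (Alt n) : ℝ) ^ (a + R * 2) := by
  have hcardZ : (Fintype.card (Fin R → Fin 2 → Alt n) : ℝ) =
      (Fintype.card (Alt n) : ℝ) ^ (R * 2) := by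
    simp only [Fintype.card_fun, Fintype.card_fin]
    push_cast
    rw [← pow_mul, mul_comm 2 R]
  have hcardX : (Fintype.card (Fin a → Alt n) : ℝ) = (Fintype.card (Alt n) : ℝ) ^ a := by
    simp only [Fintype.card_fun, Fintype.card_fin]
    push_cast
    rfl
  have e1 := card_equiv (comb a 2 R (A := Alt n))
    (fun p => ¬ Expanding (c / 75 / (2 * (a + R * 2 : ℕ))) (comb a 2 R p))
    (fun y => ¬ Expanding (c / 75 / (2 * (a + R * 2 : ℕ))) y) (fun z => Iff.rfl)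
  have e2 := card_mono (Z := (Fin a → Alt n) × (Fin R → Fin 2 → Alt n))
    (fun p => ¬ Expanding (c / 75 / (2 * (a + R * 2 : ℕ))) (comb a 2 R p))
    (fun p => ¬ (Good1 n r c p.1 ∧ ∀ v ∈ HH r n,
        1 * ‖v‖ ^ 2 ≤ 75 / c * En (RR n) p.1 v + 5 * ∑ i, En (RR n) (p.2 i) v)) (by
      intro p hp hg
      apply hp
      obtain ⟨g1, g2⟩ := hg
      refine FRALL n r (a + R * 2) (by omega) (comb a 2 R p) (c / 75) (by positivity)
        (fun j hj1 hj2 f hf => ?_) (fun f hf => ?_)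
      · rw [En_comb]
        have g3 := g1 j hj1 hj2 f hf
        have g4 : 0 ≤ ∑ i, En (repA j n) (p.2 i) f :=
          Finset.sum_nonneg fun i _ => RC14.En_nonneg _ _ _
        have g5 : c / 75 * ‖f‖ ^ 2 ≤ c * ‖f‖ ^ 2 := by
          gcongr
          linarith
        linarith
      · rw [En_comb]
        have g3 := g2 f hf
        have g4 : 0 ≤ ∑ i, En (RR n) (p.2 i) f :=
          Finset.sum_nonneg fun i _ => RC14.En_nonneg _ _ _
        have g6 : 5 * ∑ i, En (RR n) (p.2 i) f ≤ 75 / c * ∑ i, En (RR n) (p.2 i) f := by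
          gcongr
          rw [le_div_iff₀ hc]
          linarith
        have g7 : 1 * ‖f‖ ^ 2 ≤ 75 / c *
            (En (RR n) p.1 f + ∑ i, En (RR n) (p.2 i) f) := by
          rw [mul_add]; linarith
        calc c / 75 * ‖f‖ ^ 2 ≤ c / 75 * (75 / c *
              (En (RR n) p.1 f + ∑ i, En (RR n) (p.2 i) f)) := by
              gcongr
              linarith
          _ = En (RR n) p.1 f + ∑ i, En (RR n) (p.2 i) f := by
              field_simp)
  have e3 := card_prod_bound (X := Fin a → Alt n) (Z := Fin R → Fin 2 → Alt n)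
    (fun y => Good1 n r c y)
    (fun y z => ¬ (Good1 n r c y ∧ ∀ v ∈ HH r n,
        1 * ‖v‖ ^ 2 ≤ 75 / c * En (RR n) y v + 5 * ∑ i, En (RR n) (z i) v)) p2 hp2
    (fun y hy => by
      rw [hcardZ]
      refine le_trans ?_ (h2 y hy)
      exact Nat.cast_le.mpr (card_mono _ _ fun z hz hcon => hz ⟨hy, hcon⟩))
  rw [← e1]
  refine (Nat.cast_le.mpr e2).trans (e3.trans ?_)
  rw [hcardX, hcardZ, pow_add]
  have hA : (0 : ℝ) ≤ (Fintype.card (Alt n) : ℝ) ^ (R * 2) := by positivity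
  have := mul_le_mul_of_nonneg_right h1 hA
  linarith

end MAINHx

/-- main theorem: `C (log log n)²` random elements of `A_n` have gap at least `(log n)^{-C}` -/
theorem MAINH : ∃ C : ℝ, 0 < C ∧ ∀ᶠ n : ℕ in atTop, ∀ k : ℕ,
    C * (Real.log (Real.log n)) ^ 2 ≤ k →
    (Nat.card {x : Fin k → Alt n // ¬ Expanding ((Real.log n) ^ (-C)) x} : ℝ) ≤
      2 / Real.sqrt n * (Fintype.card (Alt n) : ℝ) ^ k := by
  obtain ⟨D1, hD, C0, hC0, hit⟩ := ITERH
  obtain ⟨A, hA, hfin⟩ := FINH D1 hD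
  have hlA : 0 ≤ Real.log A := Real.log_nonneg hA
  set C : ℝ := C0 + 4 * Real.log A + 6 with hC
  have hCpos : 0 < C := by positivity
  refine ⟨C, hCpos, ?_⟩
  have t2 : Tendsto (fun n : ℕ => (n : ℝ)) atTop atTop := tendsto_natCast_atTop_atTop
  have t1 : Tendsto (fun n : ℕ => Real.log (n : ℝ)) atTop atTop :=
    Real.tendsto_log_atTop.comp t2
  have t3 : Tendsto (fun n : ℕ => Real.log (Real.log (n : ℝ))) atTop atTop :=
    Real.tendsto_log_atTop.comp t1
  have p1 : ∀ᶠ y : ℝ in atTop, (Real.log y) ^ 2 ≤ y := by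
    have h := (isLittleO_log_rpow_atTop (show (0 : ℝ) < 1 / 2 by norm_num)).bound
      (show (0 : ℝ) < 1 by norm_num)
    filter_upwards [h, eventually_ge_atTop 1] with y hy hy1
    have h0 : 0 ≤ Real.log y := Real.log_nonneg hy1
    rw [Real.norm_of_nonneg h0, Real.norm_of_nonneg (by positivity), one_mul] at hy
    calc (Real.log y) ^ 2 ≤ (y ^ (1 / 2 : ℝ)) ^ 2 := pow_le_pow_left₀ h0 hy 2
      _ = y := by
          rw [← Real.sqrt_eq_rpow, Real.sq_sqrt (by linarith)]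
  filter_upwards [hit, hfin, t3.eventually_ge_atTop 1, t1.eventually p1, t2.eventually p1,
    t1.eventually_ge_atTop (600 * C), t2.eventually_ge_atTop 4] with n hit hfin hLL hq1 hq2 hl hn4
  intro k hk
  obtain ⟨a, r, c, ha, haC, hDr, h2r, hc, hc1, hcC, hbad⟩ := hit
  set ℓ := Real.log (n : ℝ) with hℓ
  set lam := Real.log ℓ with hlam
  have hn0 : (0 : ℝ) < n := by linarith
  have hC6 : 6 ≤ C := by rw [hC]; linarith
  have hℓ1 : 3600 ≤ ℓ := by linarith
  have hAl : 1 ≤ A * ℓ := by nlinarith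
  set R : ℕ := ⌈Real.logb 2 (A * ℓ)⌉₊ with hR
  have hR1 : A * ℓ ≤ 2 ^ R := by
    have h := Nat.le_ceil (Real.logb 2 (A * ℓ))
    rw [← hR] at h
    rw [Real.logb_le_iff_le_rpow (by norm_num) (by linarith)] at h
    rwa [Real.rpow_natCast] at h
  have hlog2 : 1 / 2 ≤ Real.log 2 := by linarith [Real.log_two_gt_d9]
  have hR2 : (R : ℝ) ≤ 2 * (Real.log A + lam) + 1 := by
    have h := Nat.ceil_lt_add_one (Real.logb_nonneg (show (1 : ℝ) < 2 by norm_num) hAl)
    rw [← hR] at h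
    have h2 : Real.logb 2 (A * ℓ) ≤ 2 * (Real.log A + lam) := by
      rw [Real.logb, Real.log_mul (by linarith) (by linarith), div_le_iff₀ (by linarith)]
      have : 0 ≤ Real.log A + lam := by linarith
      nlinarith
    linarith
  set kn : ℕ := a + R * 2 with hkn
  have hkn1 : (kn : ℝ) ≤ C * lam ^ 2 := by
    rw [hkn]
    push_cast
    have h5 : 1 ≤ lam ^ 2 := by nlinarith
    have h6 : lam ≤ lam ^ 2 := by nlinarith
    have h7 : Real.log A * 1 ≤ Real.log A * lam ^ 2 := by gcongr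
    rw [hC]
    nlinarith
  have hknk : kn ≤ k := by
    have : (kn : ℝ) ≤ k := hkn1.trans hk
    exact_mod_cast this
  have hkn2 : (kn : ℝ) ≤ C * ℓ := hkn1.trans (by gcongr)
  have hRn : R ≤ n := by
    have h5 : (R : ℝ) ≤ n := by
      calc (R : ℝ) ≤ kn := by rw [hkn]; push_cast; nlinarith
        _ ≤ C * ℓ := hkn2
        _ ≤ ℓ * ℓ := by
            have : C ≤ ℓ := by linarith
            gcongr
        _ = ℓ ^ 2 := by ring
        _ ≤ n := hq2
    exact_mod_cast h5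
  have key := MAINHx.comb2 n r R a c hc hc1 ha (1 / (2 * Real.sqrt n)) (1 / n) (by positivity)
    hbad (fun x hx => hfin r R hDr h2r hR1 hRn a ha c hc hc1 x hx)
  rw [← hkn] at key
  have hkn0 : 1 ≤ kn := by omega
  have hkn0' : (1 : ℝ) ≤ kn := by exact_mod_cast hkn0
  have hs0 : 0 < Real.sqrt n := Real.sqrt_pos.mpr hn0
  have hs2 : 2 ≤ Real.sqrt n := Real.le_sqrt_of_sq_le (by linarith)
  have hp : 1 / (2 * Real.sqrt n) + 1 / n ≤ 1 / Real.sqrt n := by
    have h5 : 1 / (n : ℝ) ≤ 1 / (2 * Real.sqrt n) := by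
      apply one_div_le_one_div_of_le (by positivity)
      calc 2 * Real.sqrt n ≤ Real.sqrt n * Real.sqrt n := by gcongr
        _ = n := Real.mul_self_sqrt hn0.le
    calc 1 / (2 * Real.sqrt n) + 1 / n ≤ 1 / (2 * Real.sqrt n) + 1 / (2 * Real.sqrt n) := by
          linarith
      _ = 1 / Real.sqrt n := by field_simp; norm_num
  have h6 := BLOCKS kn k hkn0 hknk (c / 75 / (2 * (kn : ℕ))) (1 / Real.sqrt n) (by positivity)
    (by positivity) (key.trans (by gcongr))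
  have h7 : (Nat.card {x : Fin k → Alt n // ¬ Expanding (ℓ ^ (-C)) x} : ℝ) ≤
      2 * (1 / Real.sqrt n) * (Fintype.card (Alt n) : ℝ) ^ k := by
    refine le_trans ?_ h6
    refine Nat.cast_le.mpr (card_mono _ _ fun x hx hcon => hx (hcon.mono ?_))
    have hℓ0 : 0 < ℓ := by linarith
    have e1 : ℓ ^ (-C) ≤ ℓ ^ (-C0) * ℓ ^ (-2 : ℝ) := by
      rw [← Real.rpow_add hℓ0]
      apply Real.rpow_le_rpow_of_exponent_le (by linarith)
      rw [hC]; linarith
    have e2 : ℓ ^ (-2 : ℝ) = 1 / (ℓ * ℓ) := by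
      rw [Real.rpow_neg hℓ0.le, Real.rpow_two, one_div, sq]
    have e3 : 600 * (kn : ℝ) ≤ ℓ * ℓ := by
      calc 600 * (kn : ℝ) ≤ 600 * (C * ℓ) := by gcongr
        _ = (600 * C) * ℓ := by ring
        _ ≤ ℓ * ℓ := by gcongr
    calc ℓ ^ (-C) ≤ ℓ ^ (-C0) * ℓ ^ (-2 : ℝ) := e1
      _ = ℓ ^ (-C0) * (1 / (ℓ * ℓ)) := by rw [e2]
      _ ≤ c * (1 / (600 * kn)) := by
          gcongr
      _ = c / 75 / (2 * (kn : ℕ)) / 4 := by
          field_simp
          norm_num
  have e : (2 : ℝ) / Real.sqrt n = 2 * (1 / Real.sqrt n) := by ring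
  rw [e]
  exact h7

end LL14
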