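import Pool.Agent.H14R2.LL.Defs
import Pool.Agent.H14R2.LL.S.POWX
import Pool.Agent.H14R2.LL.S.PMIX
import Pool.Agent.H14R2.LL.S.BPARTH
import Pool.Agent.H14R2.LL.S.ZEH
import Pool.Agent.H52R2.TE.PARAM

/-! Task ROUNDH of the project LL (MP_75608d_al). -/

set_option autoImplicit false

namespace LL14
open RC14 RC852 TE852 Finset Equiv

namespace ROUNDHx

/-- the letters in pairs -/
def unfl {n R : ℕ} (z : Fin (R * 2) → Alt n) : Fin R → Fin 2 → Alt n :=
  fun i k => z (finProdFinEquiv (i, k))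

/-- the same as an equivalence -/
def unflE (n R : ℕ) : (Fin (R * 2) → Alt n) ≃ (Fin R → Fin 2 → Alt n) where
  toFun := unfl
  invFun z := fun i => z (finProdFinEquiv.symm i).1 (finProdFinEquiv.symm i).2
  left_inv z := by
    funext i
    simp only [unfl, Prod.mk.eta, Equiv.apply_symm_apply]
  right_inv z := by
    funext i k
    simp only [unfl, Equiv.symm_apply_apply]

lemma En_unfl {n R j : ℕ} (z : Fin (R * 2) → Alt n) (v : RC14.V j n) :
    ∑ i, En (repA j n) (unfl z i) v = En (repA j n) z v := by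
  unfold En unfl
  rw [← Equiv.sum_comp (finProdFinEquiv (m := R) (n := 2)), Fintype.sum_prod_type]

lemma comb {n r Q R a a' : ℕ} {c κ lam : ℝ} (hc : 0 < c) (hc1 : c ≤ 1) (hκ : 0 < κ)
    (hlam : lam = 144 * (1 / κ) + 24) {M d : ℕ} (hMd : (M : ℝ) / (d + 1) ≤ 1 / κ)
    (x : Fin a → Alt n) (x' : Fin a' → Alt n) (b : Fin 1 → Alt n) (z : Fin (R * 2) → Alt n)
    (hx : Good1 n r c x)
    (hE : ∀ (j : ℕ) (v : RC14.V j n),
      1 / (a' : ℝ) * En (repA j n) x' v ≤ 4 / c * En (repA j n) x v)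
    (hz : ∀ j, r ≤ j → j ≤ Q → ∀ v ∈ Lvl j n,
        1 * ‖v‖ ^ 2 ≤
          24 * (En (repA j n) b v + 3 / 2 * ((M : ℝ) / (d + 1)) / a' * En (repA j n) x' v) +
            5 * ∑ i, En (repA j n) (unfl z i) v) :
    Good1 n Q (c / lam) (Fin.append x (Fin.append b z)) := by
  intro j hj1 hj2 v hv
  rw [En_append, En_append]
  have hb := En_nonneg (repA j n) b v
  have hz0 := En_nonneg (repA j n) z v
  have hx0 := En_nonneg (repA j n) x v
  have hx'0 := En_nonneg (repA j n) x' v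
  have hv0 : 0 ≤ ‖v‖ ^ 2 := by positivity
  have hk0 : 0 < 1 / κ := by positivity
  have hlam24 : 24 ≤ lam := by rw [hlam]; linarith
  have hlam0 : 0 < lam := by linarith
  rcases le_total j r with h | h
  · have h1 := hx j hj1 h v hv
    have h2 : c / lam * ‖v‖ ^ 2 ≤ c * ‖v‖ ^ 2 := by
      apply mul_le_mul_of_nonneg_right _ hv0
      exact div_le_self hc.le (by linarith)
    linarith
  · have h1 := hz j h hj2 v hv
    rw [En_unfl, one_mul] at h1
    have h2 : 3 / 2 * ((M : ℝ) / (d + 1)) / a' * En (repA j n) x' v ≤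
        3 / 2 * (1 / κ) * (4 / c * En (repA j n) x v) := by
      have e1 : 3 / 2 * ((M : ℝ) / (d + 1)) / a' * En (repA j n) x' v =
          3 / 2 * ((M : ℝ) / (d + 1)) * (1 / (a' : ℝ) * En (repA j n) x' v) := by ring
      rw [e1]
      have h3 : 0 ≤ 1 / (a' : ℝ) * En (repA j n) x' v := by positivity
      exact mul_le_mul (by linarith) (hE j v) h3 (by positivity)
    have h3 : c * (3 / 2 * (1 / κ) * (4 / c * En (repA j n) x v)) =
        6 * (1 / κ) * En (repA j n) x v := by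
      field_simp
      ring
    have h4 : c * ‖v‖ ^ 2 ≤ 24 * (c * En (repA j n) b v) +
        144 * (1 / κ) * En (repA j n) x v + 5 * (c * En (repA j n) z v) := by
      have h5 : c * ‖v‖ ^ 2 ≤ c * (24 * (En (repA j n) b v +
          3 / 2 * (1 / κ) * (4 / c * En (repA j n) x v)) + 5 * En (repA j n) z v) := by
        apply mul_le_mul_of_nonneg_left _ hc.le
        linarith
      have h6 : c * (24 * (En (repA j n) b v +
          3 / 2 * (1 / κ) * (4 / c * En (repA j n) x v)) + 5 * En (repA j n) z v) =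
          24 * (c * En (repA j n) b v) +
            24 * (c * (3 / 2 * (1 / κ) * (4 / c * En (repA j n) x v))) +
            5 * (c * En (repA j n) z v) := by ring
      rw [h6, h3] at h5
      linarith
    have h7 : c * En (repA j n) b v ≤ En (repA j n) b v := mul_le_of_le_one_left hb hc1
    have h8 : c * En (repA j n) z v ≤ En (repA j n) z v := mul_le_of_le_one_left hz0 hc1
    rw [div_mul_eq_mul_div, div_le_iff₀ hlam0]
    have h9 : (En (repA j n) x v + (En (repA j n) b v + En (repA j n) z v)) * lam =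
        144 * (1 / κ) * En (repA j n) x v + 24 * En (repA j n) x v +
          lam * (En (repA j n) b v + En (repA j n) z v) := by
      rw [hlam]; ring
    rw [h9]
    have h10 : 24 * (En (repA j n) b v + En (repA j n) z v) ≤
        lam * (En (repA j n) b v + En (repA j n) z v) :=
      mul_le_mul_of_nonneg_right hlam24 (by positivity)
    linarith

lemma card_append {a b n : ℕ} (P : (Fin (a + b) → Alt n) → Prop) :
    (Nat.card {y : Fin (a + b) → Alt n // P y} : ℝ) =
      (Nat.card {p : (Fin a → Alt n) × (Fin b → Alt n) // P (Fin.append p.1 p.2)} : ℝ) := by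
  norm_cast
  exact (card_equiv (Fin.appendEquiv a b) _ _ fun z => Iff.rfl).symm

end ROUNDHx

/-- one round: from the levels `≤ r` to the levels `≤ r G^8` -/
theorem ROUNDH : ∃ G0 : ℕ, ∃ lam : ℝ, 1 ≤ lam ∧ ∀ G : ℕ, G0 ≤ G → ∀ n r R : ℕ,
    (Real.log n) ^ 2 ≤ r → r * G ^ 256 ≤ n → 33 * Real.log n ≤ 2 ^ R * Real.log G → R ≤ n →
    ∀ a : ℕ, 1 ≤ a → ∀ c : ℝ, 0 < c → c ≤ 1 → ∀ p : ℝ, 0 ≤ p →
    (Nat.card {x : Fin a → Alt n // ¬ Good1 n r c x} : ℝ) ≤
      p * (Fintype.card (Alt n) : ℝ) ^ a →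
    (Nat.card {y : Fin (a + (1 + R * 2)) → Alt n // ¬ Good1 n (r * G ^ 8) (c / lam) y} : ℝ) ≤
      (p + 2 / (n : ℝ)) * (Fintype.card (Alt n) : ℝ) ^ (a + (1 + R * 2)) := by
  obtain ⟨κ, hκ, hpar⟩ := PARAM 48 (1 / 1024) (by norm_num) (by norm_num)
  obtain ⟨G1, hG1⟩ := Filter.eventually_atTop.1 hpar
  obtain ⟨G2, hG2⟩ := BPARTH
  obtain ⟨G3, hG3⟩ := ZEH
  have hk0 : 0 < 1 / κ := by positivity
  refine ⟨max (max G1 G2) (max G3 2), 144 * (1 / κ) + 24, by linarith, ?_⟩
  intro G hG n r R hlog hrn hR hRn a ha c hc hc1 p hp hev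
  have hGG1 : G1 ≤ G := le_trans (le_trans (le_max_left _ _) (le_max_left _ _)) hG
  have hGG2 : G2 ≤ G := le_trans (le_trans (le_max_right _ _) (le_max_left _ _)) hG
  have hGG3 : G3 ≤ G := le_trans (le_trans (le_max_left _ _) (le_max_right _ _)) hG
  have hG4 : 2 ≤ G := le_trans (le_trans (le_max_right _ _) (le_max_right _ _)) hG
  set lam : ℝ := 144 * (1 / κ) + 24 with hlam
  set A : ℝ := (Fintype.card (Alt n) : ℝ) with hA
  have hA0 : 0 < A := by rw [hA]; exact_mod_cast Fintype.card_pos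
  have hn0 : (0 : ℝ) ≤ n := Nat.cast_nonneg n
  rcases Nat.eq_zero_or_pos r with hr0 | hr
  · -- no levels
    have h1 : ∀ y : Fin (a + (1 + R * 2)) → Alt n, Good1 n (r * G ^ 8) (c / lam) y := by
      intro y j hj1 hj2
      rw [hr0, zero_mul] at hj2
      omega
    have h2 : Nat.card {y : Fin (a + (1 + R * 2)) → Alt n //
        ¬ Good1 n (r * G ^ 8) (c / lam) y} = 0 := by
      rw [Nat.card_eq_zero]
      left
      exact ⟨fun y => y.2 (h1 y.1)⟩
    rw [h2, Nat.cast_zero]
    positivity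
  -- sizes
  have hGp : ∀ k : ℕ, 1 ≤ G ^ k := fun k => Nat.one_le_pow _ _ (by omega)
  have hG256 : G ^ 24 * 4 ≤ G ^ 256 := by
    have e : G ^ 256 = G ^ 24 * (G ^ 2 * G ^ 230) := by
      rw [← pow_add, ← pow_add]
    rw [e]
    apply Nat.mul_le_mul_left
    have h1 : 2 ^ 2 ≤ G ^ 2 := Nat.pow_le_pow_left hG4 2
    calc 4 = 2 ^ 2 * 1 := by norm_num
      _ ≤ G ^ 2 * G ^ 230 := Nat.mul_le_mul h1 (hGp 230)
  have hn24 : G ^ 24 * 4 ≤ n := by
    refine hG256.trans (le_trans ?_ hrn)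
    exact Nat.le_mul_of_pos_left _ hr
  have hrn4 : r * 4 ≤ n := by
    refine le_trans (Nat.mul_le_mul_left r ?_) hrn
    exact le_trans (Nat.le_mul_of_pos_left 4 (hGp 24)) hG256
  have hn4 : 4 ≤ n := by omega
  have hnR : (4 : ℝ) ≤ n := by exact_mod_cast hn4
  have hn : (0 : ℝ) < n := by linarith
  have hlog1 : 1 ≤ Real.log n := by
    rw [Real.le_log_iff_exp_le hn]
    linarith [Real.exp_one_lt_d9]
  have hlogr : Real.log n ≤ r := by
    refine le_trans ?_ hlog
    nlinarith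
  obtain ⟨M, d, hd, hM, hN, hMd⟩ := hG1 G hGG1 r hr
  -- for a good `x`
  have hgood : ∀ x : Fin a → Alt n, Good1 n r c x →
      (Nat.card {w : Fin (1 + R * 2) → Alt n //
        ¬ Good1 n (r * G ^ 8) (c / lam) (Fin.append x w)} : ℝ) ≤
        2 / (n : ℝ) * Fintype.card (Fin (1 + R * 2) → Alt n) := by
    intro x hx
    obtain ⟨a', x', ha', hx', hE⟩ := POWX n r a ha c hc hc1 x hx
    have hmix : PMix r (1 / (G : ℝ) ^ 24) (gx (lz x') M) := by
      have hGr : (0 : ℝ) < (G : ℝ) ^ 24 := by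
        have : (0 : ℝ) < G := by exact_mod_cast (by omega : 0 < G)
        positivity
      apply PMIX n r a' (by omega) ha' x' hx'
      · rw [div_le_div_iff₀ hn hGr]
        have h1 : ((G ^ 24 * 4 : ℕ) : ℝ) ≤ n := by exact_mod_cast hn24
        push_cast at h1
        linarith
      · rw [div_le_one hGr]
        exact_mod_cast hGp 24
      · have e : Real.log (1 / (1 / (G : ℝ) ^ 24)) = 24 * Real.log G := by
          rw [one_div_one_div, Real.log_pow]
          norm_num
        rw [e]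
        refine le_trans (le_of_eq ?_) hM
        ring
    rw [ROUNDHx.card_append]
    have : Nonempty (Fin (a' + a')) := ⟨⟨0, by omega⟩⟩
    have hb := hG2 G hGG2 n r hr hrn hlogr (Fin (2 * M) → Fin (a' + a') × Bool)
      (gx (lz x') M) hmix
    refine (card_prod_bound (fun b : Fin 1 → Alt n => GoodH G r (gx (lz x') M) (cb b))
      (fun b z => ¬ Good1 n (r * G ^ 8) (c / lam) (Fin.append x (Fin.append b z))) (1 / (n : ℝ))
      (by positivity) ?_).trans ?_
    · intro b hgb
      have hz := hG3 G hGG3 n r R hr hlog hrn hR hRn a' M d x' b ha' hd hN hgb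
      rw [Fintype.card_fun, Fintype.card_fin]
      push_cast
      refine le_trans ?_ hz
      rw [← card_equiv (ROUNDHx.unflE n R) (fun z => ¬ ∀ j, r ≤ j → j ≤ r * G ^ 8 →
        ∀ v ∈ Lvl j n, 1 * ‖v‖ ^ 2 ≤
          24 * (En (repA j n) b v + 3 / 2 * ((M : ℝ) / (d + 1)) / a' * En (repA j n) x' v) +
            5 * ∑ i, En (repA j n) (ROUNDHx.unfl z i) v) _ (fun z => Iff.rfl)]
      apply Nat.cast_le.2
      apply RC14.card_mono
      intro z hz1 hcon
      exact hz1 (ROUNDHx.comb hc hc1 hκ hlam hMd x x' b z hx hE hcon)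
    · rw [Fintype.card_fun, Fintype.card_fun, Fintype.card_fin, Fintype.card_fin,
        Fintype.card_fun, Fintype.card_fin]
      push_cast
      rw [← hA]
      calc _ ≤ (1 / (n : ℝ) * A ^ 1) * A ^ (R * 2) + 1 / (n : ℝ) * A ^ 1 * A ^ (R * 2) := by
            gcongr
        _ = 2 / (n : ℝ) * A ^ (1 + R * 2) := by rw [pow_add]; ring
  rw [ROUNDHx.card_append]
  refine (card_prod_bound (fun x : Fin a → Alt n => Good1 n r c x)
    (fun x w => ¬ Good1 n (r * G ^ 8) (c / lam) (Fin.append x w)) (2 / (n : ℝ))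
    (by positivity) hgood).trans ?_
  rw [Fintype.card_fun, Fintype.card_fun, Fintype.card_fin, Fintype.card_fin]
  push_cast
  rw [← hA]
  calc _ ≤ (p * A ^ a) * A ^ (1 + R * 2) + 2 / (n : ℝ) * A ^ a * A ^ (1 + R * 2) := by
        gcongr
    _ = (p + 2 / (n : ℝ)) * A ^ (a + (1 + R * 2)) := by rw [pow_add A a]; ring

end LL14
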